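import Mathlib

/-! Infinitely many Diophantine triples with three further values of `n` greater than one: two
integers and one value with denominator dividing four.  The triple and all square roots are integral
binary quadratic forms on the conic `252104727 x^2 + 979168027 x y + 939399620 y^2 = 1`, where
`x = I`, `y = -2 K`. -/

set_option autoImplicit false

namespace Pool.Agent.Results.MP_068adb_nt.Quarters

/-- The conic has an integral point: repeated squaring in the principal class of discriminant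
`11461686123057769`. -/
theorem exists_base : ∃ x y : ℤ, 252104727 * x ^ 2 + 979168027 * x * y + 939399620 * y ^ 2 = 1 := by
  have h0 : ∃ x y : ℤ, -50398586 * x ^ 2 + 84047763 * x * y + 21814400 * y ^ 2 = 1 :=
    ⟨10135583, 5345895, by norm_num⟩
  have h1 : ∃ x y : ℤ, 5494104 * x ^ 2 + 101529773 * x * y - 52483140 * y ^ 2 = 1 := by
    obtain ⟨x, y, h⟩ := h0
    exact ⟨-19256 * x ^ 2 - 6140 * x * y - 3215 * y ^ 2, -259 * x ^ 2 + 5152 * x * y - 4408 * y ^ 2,
      by linear_combination (-50398586 * x ^ 2 + 84047763 * x * y + 21814400 * y ^ 2 + 1) * h⟩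
  have h2 : ∃ x y : ℤ, 43278050 * x ^ 2 + 103503887 * x * y - 4324545 * y ^ 2 = 1 := by
    obtain ⟨x, y, h⟩ := h1
    exact ⟨1063 * x ^ 2 - 648 * x * y + 4167 * y ^ 2, -169 * x ^ 2 + 10440 * x * y + 94850 * y ^ 2,
      by linear_combination (5494104 * x ^ 2 + 101529773 * x * y - 52483140 * y ^ 2 + 1) * h⟩
  have h3 : ∃ x y : ℤ, -35792718 * x ^ 2 + 48830833 * x * y + 63401415 * y ^ 2 = 1 := by
    obtain ⟨x, y, h⟩ := h2
    exact ⟨17855 * x ^ 2 - 4250 * x * y - 3298 * y ^ 2, 9149 * x ^ 2 + 2670 * x * y + 4107 * y ^ 2,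
      by linear_combination (43278050 * x ^ 2 + 103503887 * x * y - 4324545 * y ^ 2 + 1) * h⟩
  have h4 : ∃ x y : ℤ, -28688442 * x ^ 2 + 71924233 * x * y + 54800735 * y ^ 2 = 1 := by
    obtain ⟨x, y, h⟩ := h3
    exact ⟨-7661 * x ^ 2 - 16830 * x * y - 2090 * y ^ 2, -3882 * x ^ 2 + 816 * x * y - 7433 * y ^ 2,
      by linear_combination (-35792718 * x ^ 2 + 48830833 * x * y + 63401415 * y ^ 2 + 1) * h⟩
  have h5 : ∃ x y : ℤ, 7965622 * x ^ 2 + 99199963 * x * y - 50876550 * y ^ 2 = 1 := by
    obtain ⟨x, y, h⟩ := h4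
    exact ⟨4114 * x ^ 2 - 4640 * x * y + 13675 * y ^ 2, 2411 * x ^ 2 - 16666 * x * y + 25497 * y ^ 2,
      by linear_combination (-28688442 * x ^ 2 + 71924233 * x * y + 54800735 * y ^ 2 + 1) * h⟩
  have h6 : ∃ x y : ℤ, 63261630 * x ^ 2 + 82186597 * x * y - 18601518 * y ^ 2 = 1 := by
    obtain ⟨x, y, h⟩ := h5
    exact ⟨1886 * x ^ 2 - 348 * x * y + 9879 * y ^ 2, -937 * x ^ 2 + 8620 * x * y + 47690 * y ^ 2,
      by linear_combination (7965622 * x ^ 2 + 99199963 * x * y - 50876550 * y ^ 2 + 1) * h⟩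
  have h7 : ∃ x y : ℤ, 29122870 * x ^ 2 + 99900533 * x * y - 12718266 * y ^ 2 = 1 := by
    obtain ⟨x, y, h⟩ := h6
    exact ⟨-19641 * x ^ 2 + 6948 * x * y - 1262 * y ^ 2, 3602 * x ^ 2 - 7716 * x * y - 3953 * y ^ 2,
      by linear_combination (63261630 * x ^ 2 + 82186597 * x * y - 18601518 * y ^ 2 + 1) * h⟩
  have h8 : ∃ x y : ℤ, 14603828 * x ^ 2 + 103541245 * x * y - 12683262 * y ^ 2 = 1 := by
    obtain ⟨x, y, h⟩ := h7
    exact ⟨-15941 * x ^ 2 + 3484 * x * y - 986 * y ^ 2, 1712 * x ^ 2 - 4028 * x * y - 6161 * y ^ 2,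
      by linear_combination (29122870 * x ^ 2 + 99900533 * x * y - 12718266 * y ^ 2 + 1) * h⟩
  have h9 : ∃ x y : ℤ, 63655305 * x ^ 2 + 44585543 * x * y - 37207486 * y ^ 2 = 1 := by
    obtain ⟨x, y, h⟩ := h8
    exact ⟨2222 * x ^ 2 + 4960 * x * y + 19513 * y ^ 2, -787 * x ^ 2 + 11388 * x * y + 39687 * y ^ 2,
      by linear_combination (14603828 * x ^ 2 + 103541245 * x * y - 12683262 * y ^ 2 + 1) * h⟩
  have h10 : ∃ x y : ℤ, 6795936 * x ^ 2 + 96674797 * x * y - 77828490 * y ^ 2 = 1 := by
    obtain ⟨x, y, h⟩ := h9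
    exact ⟨-13905 * x ^ 2 + 5610 * x * y - 6163 * y ^ 2, -2359 * x ^ 2 - 8204 * x * y - 4252 * y ^ 2,
      by linear_combination (63655305 * x ^ 2 + 44585543 * x * y - 37207486 * y ^ 2 + 1) * h⟩
  have h11 : ∃ x y : ℤ, 12941586 * x ^ 2 + 100178153 * x * y - 27547315 * y ^ 2 = 1 := by
    obtain ⟨x, y, h⟩ := h10
    exact ⟨7673 * x ^ 2 - 11268 * x * y + 7727 * y ^ 2, -902 * x ^ 2 + 3096 * x * y + 11691 * y ^ 2,
      by linear_combination (6795936 * x ^ 2 + 96674797 * x * y - 77828490 * y ^ 2 + 1) * h⟩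
  have h12 : ∃ x y : ℤ, 651849 * x ^ 2 + 106270259 * x * y - 64554128 * y ^ 2 = 1 := by
    obtain ⟨x, y, h⟩ := h11
    exact ⟨-1948 * x ^ 2 - 16292 * x * y - 67203 * y ^ 2, -1725 * x ^ 2 - 27714 * x * y - 110936 * y ^ 2,
      by linear_combination (12941586 * x ^ 2 + 100178153 * x * y - 27547315 * y ^ 2 + 1) * h⟩
  have h13 : ∃ x y : ℤ, 95696290 * x ^ 2 + 98632627 * x * y - 4528104 * y ^ 2 = 1 := by
    obtain ⟨x, y, h⟩ := h12
    exact ⟨-195 * x ^ 2 - 48 * x * y - 23224 * y ^ 2, 161 * x ^ 2 - 6646 * x * y - 525801 * y ^ 2,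
      by linear_combination (651849 * x ^ 2 + 106270259 * x * y - 64554128 * y ^ 2 + 1) * h⟩
  have h14 : ∃ x y : ℤ, 1521959 * x ^ 2 + 106521999 * x * y - 18849038 * y ^ 2 = 1 := by
    obtain ⟨x, y, h⟩ := h13
    exact ⟨142329 * x ^ 2 - 12296 * x * y + 398 * y ^ 2, -1427 * x ^ 2 + 1468 * x * y + 689 * y ^ 2,
      by linear_combination (95696290 * x ^ 2 + 98632627 * x * y - 4528104 * y ^ 2 + 1) * h⟩
  have h15 : ∃ x y : ℤ, 52212278 * x ^ 2 + 3007719 * x * y - 54836909 * y ^ 2 = 1 := by
    obtain ⟨x, y, h⟩ := h14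
    exact ⟨-330 * x ^ 2 - 5222 * x * y - 186831 * y ^ 2, 239 * x ^ 2 - 5442 * x * y - 187483 * y ^ 2,
      by linear_combination (1521959 * x ^ 2 + 106521999 * x * y - 18849038 * y ^ 2 + 1) * h⟩
  have h16 : ∃ x y : ℤ, 23199834 * x ^ 2 + 73128379 * x * y - 65883298 * y ^ 2 = 1 := by
    obtain ⟨x, y, h⟩ := h15
    exact ⟨-7921 * x ^ 2 - 966 * x * y - 8347 * y ^ 2, -4598 * x ^ 2 - 13744 * x * y - 5225 * y ^ 2,
      by linear_combination (52212278 * x ^ 2 + 3007719 * x * y - 54836909 * y ^ 2 + 1) * h⟩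
  have h17 : ∃ x y : ℤ, 97514572 * x ^ 2 + 102290763 * x * y - 2559325 * y ^ 2 = 1 := by
    obtain ⟨x, y, h⟩ := h16
    exact ⟨1901 * x ^ 2 - 2176 * x * y + 1969 * y ^ 2, 968 * x ^ 2 + 23300 * x * y + 39471 * y ^ 2,
      by linear_combination (23199834 * x ^ 2 + 73128379 * x * y - 65883298 * y ^ 2 + 1) * h⟩
  have h18 : ∃ x y : ℤ, 2881865 * x ^ 2 + 101493607 * x * y - 100692942 * y ^ 2 = 1 := by
    obtain ⟨x, y, h⟩ := h17
    exact ⟨-96577 * x ^ 2 + 2806 * x * y - 1063 * y ^ 2, 1741 * x ^ 2 - 2070 * x * y - 1040 * y ^ 2,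
      by linear_combination (97514572 * x ^ 2 + 102290763 * x * y - 2559325 * y ^ 2 + 1) * h⟩
  have h19 : ∃ x y : ℤ, 73933720 * x ^ 2 + 102947357 * x * y - 2919939 * y ^ 2 = 1 := by
    obtain ⟨x, y, h⟩ := h18
    exact ⟨92 * x ^ 2 + 3206 * x * y + 59669 * y ^ 2, 1605 * x ^ 2 + 118580 * x * y + 2144156 * y ^ 2,
      by linear_combination (2881865 * x ^ 2 + 101493607 * x * y - 100692942 * y ^ 2 + 1) * h⟩
  have h20 : ∃ x y : ℤ, 252104727 * x ^ 2 + 979168027 * x * y + 939399620 * y ^ 2 = 1 := by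
    obtain ⟨x, y, h⟩ := h19
    exact ⟨8495 * x ^ 2 + 74350 * x * y + 52099 * y ^ 2, -1967 * x ^ 2 - 34622 * x * y - 24182 * y ^ 2,
      by linear_combination (73933720 * x ^ 2 + 102947357 * x * y - 2919939 * y ^ 2 + 1) * h⟩
  exact h20

/-- Solutions with `x + 2 y` positive and arbitrarily large `-29250881 x - 79536814 y`. -/
theorem exists_sol (B : ℤ) : ∃ x y : ℤ, 0 < x + 2 * y ∧ B ≤ -29250881 * x - 79536814 * y ∧
    252104727 * x ^ 2 + 979168027 * x * y + 939399620 * y ^ 2 = 1 := by
  have hns : ¬ IsSquare (11461686123057769 : ℤ) := by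
    rintro ⟨r, hr⟩
    have h1 : |r| * |r| = 11461686123057769 := by rw [abs_mul_abs_self]; exact hr.symm
    have h0 : 0 ≤ |r| := abs_nonneg r
    rcases le_or_gt |r| 107059264 with h | h <;> nlinarith
  obtain ⟨p, q, hpq, hq⟩ :=
    Pell.exists_of_not_isSquare (by norm_num : (0 : ℤ) < 11461686123057769) hns
  obtain ⟨P, Q, hP, hQ, h⟩ : ∃ P Q : ℤ, 1 ≤ P ∧ 1 ≤ Q ∧ P ^ 2 - 11461686123057769 * Q ^ 2 = 1 := by
    refine ⟨|p|, |q|, ?_, Int.one_le_abs hq, by rw [sq_abs, sq_abs]; exact hpq⟩
    apply Int.one_le_abs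
    rintro rfl
    nlinarith [sq_nonneg q]
  obtain ⟨u, v, huv, hf0⟩ : ∃ u v : ℤ, 0 < u + 2 * v ∧
      252104727 * u ^ 2 + 979168027 * u * v + 939399620 * v ^ 2 = 1 := by
    obtain ⟨x, y, hxy⟩ := exists_base
    rcases lt_trichotomy (x + 2 * y) 0 with h0 | h0 | h0
    · exact ⟨-x, -y, by omega, by linear_combination hxy⟩
    · obtain rfl : x = -2 * y := by omega
      nlinarith [sq_nonneg y]
    · exact ⟨x, y, h0, hxy⟩
  have key : ∀ n : ℕ, ∃ x y : ℤ, 0 < x + 2 * y ∧
      -29250881 * u - 79536814 * v + n ≤ -29250881 * x - 79536814 * y ∧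
      252104727 * x ^ 2 + 979168027 * x * y + 939399620 * y ^ 2 = 1 := by
    intro n
    induction n with
    | zero => exact ⟨u, v, huv, by simp, hf0⟩
    | succ n ih =>
      obtain ⟨x, y, hJ, hX, hf⟩ := ih
      obtain ⟨W, hW⟩ : ∃ W : ℤ, W = -29250881 * x - 79536814 * y := ⟨_, rfl⟩
      obtain ⟨J, hJd⟩ : ∃ J : ℤ, J = x + 2 * y := ⟨_, rfl⟩
      have hsq : W ^ 2 + 42070104 = 11461686123057769 * J ^ 2 := by
        rw [hW, hJd]; linear_combination (-42070104) * hf
      rw [← hJd] at hJ
      have hQ2 : 0 < Q ^ 2 := by positivity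
      have hJ2 : 0 < J ^ 2 := by positivity
      have a1 : |W * Q| < J * P := by
        refine abs_lt_of_sq_lt_sq ?_ (by positivity)
        have e : (J * P) ^ 2 - (W * Q) ^ 2 = J ^ 2 + 42070104 * Q ^ 2 := by
          linear_combination J ^ 2 * h - Q ^ 2 * hsq
        linarith
      have a2 : |W * (P - 1)| < 11461686123057769 * (J * Q) := by
        refine abs_lt_of_sq_lt_sq ?_ (by positivity)
        have e : (11461686123057769 * (J * Q)) ^ 2 - (W * (P - 1)) ^ 2 =
            W ^ 2 * (2 * (P - 1)) + 42070104 * (11461686123057769 * Q ^ 2) := by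
          linear_combination (-W ^ 2) * h - 11461686123057769 * Q ^ 2 * hsq
        have : 0 ≤ W ^ 2 * (2 * (P - 1)) := mul_nonneg (sq_nonneg W) (by omega)
        linarith
      have b1 := (abs_lt.1 a1).1
      have b2 := (abs_lt.1 a2).1
      refine ⟨P * x + Q * (979168027 * x + 1878799240 * y),
        P * y - Q * (504209454 * x + 979168027 * y), ?_, ?_, ?_⟩
      · have e : P * x + Q * (979168027 * x + 1878799240 * y) +
            2 * (P * y - Q * (504209454 * x + 979168027 * y)) = J * P + W * Q := by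
          rw [hW, hJd]; ring
        rw [e]; linarith
      · have e : -29250881 * (P * x + Q * (979168027 * x + 1878799240 * y)) -
            79536814 * (P * y - Q * (504209454 * x + 979168027 * y)) =
            W + (W * (P - 1) + 11461686123057769 * (J * Q)) := by rw [hW, hJd]; ring
        rw [e]; push_cast; linarith
      · linear_combination (252104727 * x ^ 2 + 979168027 * x * y + 939399620 * y ^ 2) * h + hf
  obtain ⟨x, y, hJ, hX, hf⟩ := key (B - (-29250881 * u - 79536814 * v)).toNat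
  exact ⟨x, y, hJ, by omega, hf⟩

/-- The size relations on the chosen branch, and parity of the second coordinate. -/
theorem branch (B : ℤ) : ∃ I K : ℤ, B < K ∧ 2 ≤ K ∧ 0 < -136310145 * I + 587310684 * K ∧
    0 < 136310146 * I - 587310688 * K ∧ 252104727 * I ^ 2 - 1958336054 * I * K + 3757598480 * K ^ 2 = 1 := by
  obtain ⟨x, y, hJ, hX, hf⟩ := exists_sol (107059265 * (|B| + 2))
  have hB := le_abs_self B
  have hB0 := abs_nonneg B
  have h4 : (2 : ℤ) ∣ y := by
    have h8 : ∀ x y : ZMod 2, 252104727 * x ^ 2 + 979168027 * x * y + 939399620 * y ^ 2 = 1 →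
        y = 0 := by decide
    have h1 := h8 x y (by exact_mod_cast congrArg (Int.cast : ℤ → ZMod 2) hf)
    exact_mod_cast (ZMod.intCast_zmod_eq_zero_iff_dvd _ 2).1 h1
  obtain ⟨k, rfl⟩ := h4
  obtain ⟨W, hW⟩ : ∃ W : ℤ, W = -29250881 * x - 79536814 * (2 * k) := ⟨_, rfl⟩
  obtain ⟨J, hJd⟩ : ∃ J : ℤ, J = x + 2 * (2 * k) := ⟨_, rfl⟩
  have hsq : W ^ 2 + 42070104 = 11461686123057769 * J ^ 2 := by
    rw [hW, hJd]; linear_combination (-42070104) * hf
  have hW0 : 0 < W := by omega
  have hJ0 : 0 < J := by omega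
  have h1 : 107059264 * J < W := by
    by_contra hc
    have : W ≤ 107059264 * J := by omega
    nlinarith
  have h2 : W < 107059265 * J := by
    by_contra hc
    have : 107059265 * J ≤ W := by omega
    nlinarith
  exact ⟨x, -k, by omega, by omega, by omega, by omega, by linear_combination hf⟩

/-- There are infinitely many triples `0 < a < b < c` of integers that are `D(n)`-triples for
`n = 1` and for two integers `n₃ < n₄`, and such that `4 a b + m`, `4 a c + m`, `4 b c + m` are
squares for an integer `m` with `4 < m < 4 n₃`. -/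
theorem result :
    Set.Infinite {t : ℤ × ℤ × ℤ |
      0 < t.1 ∧ t.1 < t.2.1 ∧ t.2.1 < t.2.2 ∧
      ∃ m n₃ n₄ : ℤ, 4 < m ∧ m < 4 * n₃ ∧ n₃ < n₄ ∧
        (∀ n : ℤ, (n = 1 ∨ n = n₃ ∨ n = n₄) →
          IsSquare (t.1 * t.2.1 + n) ∧ IsSquare (t.1 * t.2.2 + n) ∧
          IsSquare (t.2.1 * t.2.2 + n)) ∧
        IsSquare (4 * (t.1 * t.2.1) + m) ∧ IsSquare (4 * (t.1 * t.2.2) + m) ∧
          IsSquare (4 * (t.2.1 * t.2.2) + m)} := by
  apply Set.Infinite.of_image (fun t : ℤ × ℤ × ℤ => t.1)
  apply Set.infinite_of_forall_exists_gt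
  intro B
  obtain ⟨I, K, hB, hK, h1, h2, hf⟩ := branch B
  obtain ⟨α, hα⟩ : ∃ α : ℤ, α = -136310145 * I + 587310684 * K := ⟨_, rfl⟩
  obtain ⟨β, hβ⟩ : ∃ β : ℤ, β = 136310146 * I - 587310688 * K := ⟨_, rfl⟩
  have hα0 : 0 < α := by omega
  have hβ0 : 0 < β := by omega
  have p1 : 0 < -1876300 * I ^ 2 + 15327430 * I * K - 31115525 * K ^ 2 := by
    have hp : 0 < 1718941231972317010540 * α ^ 2 + 3437882403336153418620 * α * β + 1718941171363836581475 * β ^ 2 := by positivity
    have e : 1718941231972317010540 * α ^ 2 + 3437882403336153418620 * α * β + 1718941171363836581475 * β ^ 2 =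
        1769893650570816 * (-1876300 * I ^ 2 + 15327430 * I * K - 31115525 * K ^ 2) := by
      rw [hα, hβ]; ring
    rw [e] at hp
    exact pos_of_mul_pos_left (by simpa [mul_comm] using hp) (by norm_num : (0 : ℤ) ≤ 1769893650570816)
  have p2 : 0 < 32519035996 * I ^ 2 - 233042765542 * I * K + 402807303940 * K ^ 2 := by
    have hp : 0 < 44693278076004390717992848 * α ^ 2 + 89386557481225275310102656 * α * β + 44693279405220875532927516 * β ^ 2 := by positivity
    have e : 44693278076004390717992848 * α ^ 2 + 89386557481225275310102656 * α * β + 44693279405220875532927516 * β ^ 2 =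
        1769893650570816 * (32519035996 * I ^ 2 - 233042765542 * I * K + 402807303940 * K ^ 2) := by
      rw [hα, hβ]; ring
    rw [e] at hp
    exact pos_of_mul_pos_left (by simpa [mul_comm] using hp) (by norm_num : (0 : ℤ) ≤ 1769893650570816)
  have p3 : 0 < -102769246 * I ^ 2 + 1041715962 * I * K - 2550602916 * K ^ 2 := by
    have hp : 0 < 556079505743206108614896 * α ^ 2 + 1112159009895598715407584 * α * β + 556079504152392578745684 * β ^ 2 := by positivity
    have e : 556079505743206108614896 * α ^ 2 + 1112159009895598715407584 * α * β + 556079504152392578745684 * β ^ 2 =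
        1769893650570816 * (-102769246 * I ^ 2 + 1041715962 * I * K - 2550602916 * K ^ 2) := by
      rw [hα, hβ]; ring
    rw [e] at hp
    exact pos_of_mul_pos_left (by simpa [mul_comm] using hp) (by norm_num : (0 : ℤ) ≤ 1769893650570816)
  have p5 : 0 < 379458579752442225 * I ^ 4 - 5882533659487220400 * I ^ 3 * K + 34029904321599105600 * I ^ 2 * K ^ 2 - 87027199587133862400 * I * K ^ 3 + 82977515045895167996 * K ^ 4 := by
    have hp : 0 < 95552371546921361799324359101184237107283312576 * α ^ 4 + 382209490121273180037349158432456460503288209280 * α ^ 3 * β + 573314241082291710664834954741355458898526928800 * α ^ 2 * β ^ 2 + 382209497988449328414916710067419369592884703200 * α * β ^ 3 + 95552375480509435988106554657342562142751183100 * β ^ 4 := by positivity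
    have e : 95552371546921361799324359101184237107283312576 * α ^ 4 + 382209490121273180037349158432456460503288209280 * α ^ 3 * β + 573314241082291710664834954741355458898526928800 * α ^ 2 * β ^ 2 + 382209497988449328414916710067419369592884703200 * α * β ^ 3 + 95552375480509435988106554657342562142751183100 * β ^ 4 =
        3132523534330889727762630905856 * (379458579752442225 * I ^ 4 - 5882533659487220400 * I ^ 3 * K + 34029904321599105600 * I ^ 2 * K ^ 2 - 87027199587133862400 * I * K ^ 3 + 82977515045895167996 * K ^ 4) := by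
      rw [hα, hβ]; ring
    rw [e] at hp
    exact pos_of_mul_pos_left (by simpa [mul_comm] using hp) (by norm_num : (0 : ℤ) ≤ 3132523534330889727762630905856)
  have p6 : 0 < 110528525613558212629875 * I ^ 4 - 1887044009495812562656800 * I ^ 3 * K + 12077664040696162942904400 * I ^ 2 * K ^ 2 - 34344975230476428202963200 * I * K ^ 3 + 36613119613546586117145600 * K ^ 4 := by
    have hp : 0 < 9442506950633074106508094884139033810393652520960000 * α ^ 4 + 37770027305754068641188231478415899699303824532070400 * α ^ 3 * β + 56655040213463764291428806723643931811411684073907200 * α ^ 2 * β ^ 2 + 37770026312197619085325391316691473807933836034124800 * α * β ^ 3 + 9442506453854849328576721187324737177550702786304000 * β ^ 4 := by positivity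
    have e : 9442506950633074106508094884139033810393652520960000 * α ^ 4 + 37770027305754068641188231478415899699303824532070400 * α ^ 3 * β + 56655040213463764291428806723643931811411684073907200 * α ^ 2 * β ^ 2 + 37770026312197619085325391316691473807933836034124800 * α * β ^ 3 + 9442506453854849328576721187324737177550702786304000 * β ^ 4 =
        3132523534330889727762630905856 * (110528525613558212629875 * I ^ 4 - 1887044009495812562656800 * I ^ 3 * K + 12077664040696162942904400 * I ^ 2 * K ^ 2 - 34344975230476428202963200 * I * K ^ 3 + 36613119613546586117145600 * K ^ 4) := by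
      rw [hα, hβ]; ring
    rw [e] at hp
    exact pos_of_mul_pos_left (by simpa [mul_comm] using hp) (by norm_num : (0 : ℤ) ≤ 3132523534330889727762630905856)
  have p7 : 0 < -27246591191758838859000 * I ^ 4 + 464228217777123421988400 * I ^ 3 * K - 2965184223497775307735200 * I ^ 2 * K ^ 2 + 8415895205233017126417600 * I * K ^ 3 - 8956111837613299841260800 * K ^ 4 := by
    have hp : 0 < 108544298744984274500505635905218592153224350197248000 * α ^ 4 + 434177192483321420991577332283547160958639233002956800 * α ^ 3 * β + 651265784980058636746330010692459866120689876022758400 * α ^ 2 * β ^ 2 + 434177187490090108519950473559452564957702728265817600 * α * β ^ 3 + 108544296248368618264692159245321267642427735048768000 * β ^ 4 := by positivity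
    have e : 108544298744984274500505635905218592153224350197248000 * α ^ 4 + 434177192483321420991577332283547160958639233002956800 * α ^ 3 * β + 651265784980058636746330010692459866120689876022758400 * α ^ 2 * β ^ 2 + 434177187490090108519950473559452564957702728265817600 * α * β ^ 3 + 108544296248368618264692159245321267642427735048768000 * β ^ 4 =
        3132523534330889727762630905856 * (-27246591191758838859000 * I ^ 4 + 464228217777123421988400 * I ^ 3 * K - 2965184223497775307735200 * I ^ 2 * K ^ 2 + 8415895205233017126417600 * I * K ^ 3 - 8956111837613299841260800 * K ^ 4) := by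
      rw [hα, hβ]; ring
    rw [e] at hp
    exact pos_of_mul_pos_left (by simpa [mul_comm] using hp) (by norm_num : (0 : ℤ) ≤ 3132523534330889727762630905856)
  have k2 : K < K ^ 2 := by nlinarith
  have k4 : 0 < K ^ 4 := pow_pos (by omega) 4
  clear hα hβ hα0 hβ0 h1 h2
  refine ⟨-1876300 * I ^ 2 + 15327430 * I * K - 31115524 * K ^ 2,
    ⟨(-1876300 * I ^ 2 + 15327430 * I * K - 31115524 * K ^ 2, 32517159696 * I ^ 2 - 233027438112 * I * K + 402776188416 * K ^ 2,
      32414390450 * I ^ 2 - 231985722150 * I * K + 400225585500 * K ^ 2), ?_, rfl⟩, by linarith⟩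
  simp only [Set.mem_ofPred_eq]
  refine ⟨by linarith, by linarith, by linarith,
    379458579752442225 * I ^ 4 - 5882533659487220400 * I ^ 3 * K + 34029904321599105600 * I ^ 2 * K ^ 2 - 87027199587133862400 * I * K ^ 3 + 82977515045895168000 * K ^ 4,
    27632226268034491268025 * I ^ 4 - 471762473007368012469300 * I ^ 3 * K + 3019424517650121135502500 * I ^ 2 * K ^ 2 - 8586265564419003834206400 * I * K ^ 3 + 9153300647765408003078400 * K ^ 4,
    385635076275652409025 * I ^ 4 - 7534255230244590480900 * I ^ 3 * K + 54240294152345827767300 * I ^ 2 * K ^ 2 - 170370359185986707788800 * I * K ^ 3 + 197188810152108161817600 * K ^ 4,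
    by linarith, by linarith, by linarith, ?_, ?_⟩
  · have h1 : (1 : ℤ) = (252104727 * I ^ 2 - 1958336054 * I * K + 3757598480 * K ^ 2) ^ 2 := by rw [hf]; norm_num
    rintro n (h | h | h)
    · rw [h, h1]
      exact ⟨⟨-50446473 * I ^ 2 + 513194266 * I * K - 1259743696 * K ^ 2, by ring⟩,
        ⟨-52322773 * I ^ 2 + 528521696 * I * K - 1290859220 * K ^ 2, by ring⟩,
        ⟨32466713223 * I ^ 2 - 232514243846 * I * K + 401516444720 * K ^ 2, by ring⟩⟩
    · rw [h]
      exact ⟨⟨-166229255115 * I ^ 2 + 1419008757054 * I * K - 3025440152304 * K ^ 2, by ring⟩,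
        ⟨-166229255695 * I ^ 2 + 1419008762720 * I * K - 3025440165420 * K ^ 2, by ring⟩,
        ⟨169370157285 * I ^ 2 - 1437264509730 * I * K + 3051966904080 * K ^ 2, by ring⟩⟩
    · rw [h]
      exact ⟨⟨19636039935 * I ^ 2 - 191823800046 * I * K + 444045355296 * K ^ 2, by ring⟩,
        ⟨19636044845 * I ^ 2 - 191823841960 * I * K + 444045444660 * K ^ 2, by ring⟩,
        ⟨37942838415 * I ^ 2 - 298227746190 * I * K + 598656951840 * K ^ 2, by ring⟩⟩
  · exact ⟨⟨-367982055 * I ^ 2 + 2907748008 * I * K - 5731243008 * K ^ 2, by ring⟩,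
        ⟨369028585 * I ^ 2 - 2918631920 * I * K + 5758871400 * K ^ 2, by ring⟩,
        ⟨-64934390745 * I ^ 2 + 465036465240 * I * K - 803049388800 * K ^ 2, by ring⟩⟩

end Pool.Agent.Results.MP_068adb_nt.Quarters
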