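import Mathlib

/-! Infinitely many Diophantine triples that are also `D(n)`-triples for three further values of `n`
(one negative, two greater than one).  For integers `I, J` with `480 I^2 - 782 I J + 61 J^2 = 1` put
`m = 10 I + J`, `x = 19 I - 14 J`, `y = 21 J - 5 I`, `z = 26 I - 35 J` and
`a = 2 (m^2 - x^2)`, `b = 2 (m^2 - y^2)`, `c = 2 (m^2 - z^2)`. -/

set_option autoImplicit false

namespace Pool.Agent.Results.MP_068adb_nt.ThreeFurther

/-- Arbitrarily large solutions of the binary quadratic equation on the chosen branch. -/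
theorem exists_sol (B : ℕ) : ∃ I J : ℤ, (B : ℤ) + 2 ≤ J ∧ 0 < 480 * I - 391 * J ∧
    480 * I ^ 2 - 782 * I * J + 61 * J ^ 2 = 1 := by
  have hns : ¬ IsSquare (123601 : ℤ) := by
    rintro ⟨r, hr⟩
    have h1 : |r| * |r| = 123601 := by rw [abs_mul_abs_self]; exact hr.symm
    have h0 : 0 ≤ |r| := abs_nonneg r
    rcases le_or_gt |r| 351 with h | h <;> nlinarith
  obtain ⟨p, q, hpq, hq⟩ := Pell.exists_of_not_isSquare (by norm_num : (0 : ℤ) < 123601) hns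
  obtain ⟨P, Q, hP, hQ, h⟩ : ∃ P Q : ℤ, 1 ≤ P ∧ 1 ≤ Q ∧ P ^ 2 - 123601 * Q ^ 2 = 1 := by
    refine ⟨|p|, |q|, ?_, Int.one_le_abs hq, by rw [sq_abs, sq_abs]; exact hpq⟩
    apply Int.one_le_abs
    rintro rfl
    nlinarith [sq_nonneg q]
  induction B with
  | zero =>
    exact ⟨927309784196313916918306559802485922988018145975490,
      599417014874490742334007492293395541871539064570811, by norm_num, by norm_num, by norm_num⟩
  | succ B ih =>
    obtain ⟨I, J, hJ, hX, hf⟩ := ih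
    have hB : (0 : ℤ) ≤ B := Int.natCast_nonneg B
    refine ⟨P * I + Q * (391 * I - 61 * J), P * J + Q * (480 * I - 391 * J), ?_, ?_, ?_⟩
    · push_cast
      nlinarith [mul_pos (by omega : 0 < Q) hX, mul_nonneg (by omega : 0 ≤ P - 1) (by omega : 0 ≤ J)]
    · nlinarith [mul_pos (by omega : 0 < P) hX, mul_pos (by omega : 0 < Q) (by omega : 0 < J)]
    · linear_combination (480 * I ^ 2 - 782 * I * J + 61 * J ^ 2) * h + hf

/-- The size relations on the chosen branch. -/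
theorem ineqs (I J : ℤ) (hJ : 2 ≤ J) (hX : 0 < 480 * I - 391 * J)
    (hf : 480 * I ^ 2 - 782 * I * J + 61 * J ^ 2 = 1) :
    0 < 480 * I - 742 * J ∧ 0 < 743 * J - 480 * I := by
  obtain ⟨W, hW⟩ : ∃ W : ℤ, W = 480 * I - 391 * J := ⟨_, rfl⟩
  have hsq : W ^ 2 = 123601 * J ^ 2 + 480 := by rw [hW]; linear_combination 480 * hf
  have hW0 : 0 < W := by omega
  have h1 : 351 * J < W := by
    by_contra hc
    have : W ≤ 351 * J := by omega
    nlinarith
  have h2 : W < 352 * J := by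
    by_contra hc
    have : 352 * J ≤ W := by omega
    nlinarith
  omega

theorem cubic_pos (I J : ℤ) (h1 : 0 < 480 * I - 742 * J) (h2 : 0 < 743 * J - 480 * I) :
    0 < (10 * I + J) * ((19 * I - 14 * J) ^ 2 + (21 * J - 5 * I) ^ 2 + (26 * I - 35 * J) ^ 2 -
      (10 * I + J) ^ 2) - 2 * ((19 * I - 14 * J) * (21 * J - 5 * I) * (26 * I - 35 * J)) := by
  obtain ⟨α, hα⟩ : ∃ α : ℤ, α = 480 * I - 742 * J := ⟨_, rfl⟩
  obtain ⟨β, hβ⟩ : ∃ β : ℤ, β = 743 * J - 480 * I := ⟨_, rfl⟩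
  have hα0 : 0 < α := by omega
  have hβ0 : 0 < β := by omega
  have hp : 0 < 71393895200 * α ^ 3 + 215158445760 * α ^ 2 * β + 216140830080 * α * β ^ 2 +
      72376264960 * β ^ 3 := by positivity
  have e : 71393895200 * α ^ 3 + 215158445760 * α ^ 2 * β + 216140830080 * α * β ^ 2 +
      72376264960 * β ^ 3 = 110592000 * ((10 * I + J) * ((19 * I - 14 * J) ^ 2 +
      (21 * J - 5 * I) ^ 2 + (26 * I - 35 * J) ^ 2 - (10 * I + J) ^ 2) -
      2 * ((19 * I - 14 * J) * (21 * J - 5 * I) * (26 * I - 35 * J))) := by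
    rw [hα, hβ]; ring
  rw [e] at hp
  exact pos_of_mul_pos_left (by simpa [mul_comm] using hp) (by norm_num : (0 : ℤ) ≤ 110592000)

/-- The family: `63 k + 6`, `175 k + 20`, `448 k + 48` are twice differences of squares with a common
first square, for arbitrarily large `k`. -/
theorem family (B : ℕ) : ∃ k m x y z : ℤ, (B : ℤ) < 63 * k + 6 ∧ 0 ≤ k ∧ 0 < m ∧ 0 < x * y * z ∧
    0 < m * (x ^ 2 + y ^ 2 + z ^ 2 - m ^ 2) - 2 * (x * y * z) ∧
    63 * k + 6 = 2 * (m ^ 2 - x ^ 2) ∧ 175 * k + 20 = 2 * (m ^ 2 - y ^ 2) ∧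
    448 * k + 48 = 2 * (m ^ 2 - z ^ 2) := by
  obtain ⟨I, J, hJ, hX, hf⟩ := exists_sol B
  have hB0 : (0 : ℤ) ≤ B := Int.natCast_nonneg _
  obtain ⟨h1, h2⟩ := ineqs I J (by omega) hX hf
  have hc := cubic_pos I J h1 h2
  obtain ⟨X, hXd⟩ : ∃ X : ℤ, X = 330 * I ^ 2 - 598 * I * J + 119 * J ^ 2 := ⟨_, rfl⟩
  obtain ⟨a, hA⟩ : ∃ a : ℤ, a = 2 * ((10 * I + J) ^ 2 - (19 * I - 14 * J) ^ 2) := ⟨_, rfl⟩
  obtain ⟨b, hB⟩ : ∃ b : ℤ, b = 2 * ((10 * I + J) ^ 2 - (21 * J - 5 * I) ^ 2) := ⟨_, rfl⟩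
  obtain ⟨c, hC⟩ : ∃ c : ℤ, c = 2 * ((10 * I + J) ^ 2 - (26 * I - 35 * J) ^ 2) := ⟨_, rfl⟩
  have ea : 5 * a = -(21 * X) + 9 := by rw [hA, hXd]; linear_combination 9 * hf
  have eb : 3 * b = -(35 * X) + 25 := by rw [hB, hXd]; linear_combination 25 * hf
  have ec : 15 * c = -(448 * X) + 272 := by rw [hC, hXd]; linear_combination 272 * hf
  have ha : J < a := by
    have e : a = 2 * ((15 * J - 9 * I) * (29 * I - 13 * J)) := by rw [hA]; ring
    have p1 : 1 ≤ 15 * J - 9 * I := by omega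
    have p2 : J ≤ 29 * I - 13 * J := by omega
    have p3 : 1 * J ≤ (15 * J - 9 * I) * (29 * I - 13 * J) :=
      mul_le_mul p1 p2 (by omega) (by omega)
    rw [e]; linarith
  have hxyz : 0 < (19 * I - 14 * J) * (21 * J - 5 * I) * (26 * I - 35 * J) :=
    mul_pos (mul_pos (by omega) (by omega)) (by omega)
  refine ⟨(-X - 1) / 15, 10 * I + J, 19 * I - 14 * J, 21 * J - 5 * I, 26 * I - 35 * J, ?_, ?_, ?_,
    hxyz, hc, ?_, ?_, ?_⟩
  · clear hA hB hC hXd hc hxyz hf; omega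
  · clear hA hB hC hXd hc hxyz hf; omega
  · clear hA hB hC hXd hc hxyz hf; omega
  · rw [← hA]; clear hA hB hC hXd hc hxyz hf; omega
  · rw [← hB]; clear hA hB hC hXd hc hxyz hf; omega
  · rw [← hC]; clear hA hB hC hXd hc hxyz hf; omega

/-- There are infinitely many triples `0 < a < b < c` of integers that are `D(n)`-triples for `n = 1`
and for three further integers `n₀ < 0`, `1 < n₂ < n₃`. -/
theorem result :
    Set.Infinite {t : ℤ × ℤ × ℤ |
      0 < t.1 ∧ t.1 < t.2.1 ∧ t.2.1 < t.2.2 ∧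
      ∃ n₀ n₂ n₃ : ℤ, n₀ < 0 ∧ 1 < n₂ ∧ n₂ < n₃ ∧
        ∀ n : ℤ, (n = 1 ∨ n = n₀ ∨ n = n₂ ∨ n = n₃) →
          IsSquare (t.1 * t.2.1 + n) ∧ IsSquare (t.1 * t.2.2 + n) ∧
          IsSquare (t.2.1 * t.2.2 + n)} := by
  apply Set.Infinite.of_image (fun t : ℤ × ℤ × ℤ => t.1)
  apply Set.infinite_of_forall_exists_gt
  intro B
  obtain ⟨k, m, x, y, z, hB, hk, hm, hxyz, hc, ka, kb, kc⟩ := family B.natAbs
  have hB1 : B ≤ (B.natAbs : ℤ) := Int.le_natAbs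
  refine ⟨63 * k + 6, ⟨(63 * k + 6, 175 * k + 20, 448 * k + 48), ?_, rfl⟩, by linarith⟩
  simp only [Set.mem_ofPred_eq]
  refine ⟨by linarith, by linarith, by linarith, -((60 * k + 7) * (180 * k + 17)),
    4 * (m * (m * (x ^ 2 + y ^ 2 + z ^ 2 - m ^ 2) - 2 * (x * y * z))),
    4 * (m * (m * (x ^ 2 + y ^ 2 + z ^ 2 - m ^ 2) + 2 * (x * y * z))), ?_, ?_, ?_, ?_⟩
  · have : 0 < (60 * k + 7) * (180 * k + 17) := by positivity
    linarith
  · have := mul_pos hm hc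
    linarith
  · have := mul_pos hm hxyz
    linarith
  intro n hn
  rcases hn with h | h | h | h
  · rw [h]
    exact ⟨⟨105 * k + 11, by ring⟩, ⟨168 * k + 17, by ring⟩, ⟨280 * k + 31, by ring⟩⟩
  · rw [h]
    exact ⟨⟨15 * k + 1, by ring⟩, ⟨132 * k + 13, by ring⟩, ⟨260 * k + 29, by ring⟩⟩
  · rw [h, ka, kb, kc]
    exact ⟨⟨2 * (x * y - m * z), by ring⟩, ⟨2 * (x * z - m * y), by ring⟩,
      ⟨2 * (y * z - m * x), by ring⟩⟩
  · rw [h, ka, kb, kc]
    exact ⟨⟨2 * (x * y + m * z), by ring⟩, ⟨2 * (x * z + m * y), by ring⟩,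
      ⟨2 * (y * z + m * x), by ring⟩⟩

end Pool.Agent.Results.MP_068adb_nt.ThreeFurther
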